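import Mathlib

/-!
# Total domination versus matching number: the inequality fails on the class `𝒢₂`

We give a connected graph on eleven vertices in which all but two vertices lie in a triangle,
with total domination number six and matching number five: a triangle `0 1 2`, a pendant triangle
`3 4 5` joined to `0`, a pendant triangle `6 7 8` joined to `1`, and a pendant path `9 10`
joined to `2`.
-/

namespace Pool.Agent.Results.MP_7cc4cd_co.GTwoFails

variable {V : Type*}

/-- `S` is a total dominating set: every vertex (also those of `S`) has a neighbour in `S`. -/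
def IsTotalDominating (G : SimpleGraph V) (S : Finset V) : Prop :=
  ∀ v, ∃ w ∈ S, G.Adj v w

/-- The total domination number: least size of a total dominating set. -/
noncomputable def totalDominationNumber (G : SimpleGraph V) : ℕ :=
  sInf {k | ∃ S : Finset V, S.card = k ∧ IsTotalDominating G S}

/-- `M` is a matching: a set of edges of `G` that are pairwise disjoint. -/
def IsMatchingSet (G : SimpleGraph V) (M : Finset (Sym2 V)) : Prop :=
  (∀ e ∈ M, e ∈ G.edgeSet) ∧ ∀ e ∈ M, ∀ f ∈ M, e ≠ f → ∀ v, v ∈ e → v ∉ f

/-- The matching number: largest size of a matching. -/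
noncomputable def matchingNumber (G : SimpleGraph V) : ℕ :=
  sSup {k | ∃ M : Finset (Sym2 V), M.card = k ∧ IsMatchingSet G M}

/-- The vertex `v` lies in a triangle of `G`. -/
def InTriangle (G : SimpleGraph V) (v : V) : Prop :=
  ∃ u w, G.Adj v u ∧ G.Adj v w ∧ G.Adj u w

/-- The edges of the counterexample. -/
def edgesL : List (Fin 11 × Fin 11) :=
  [(0,1),(0,2),(1,2),(3,4),(3,5),(4,5),(6,7),(6,8),(7,8),(0,3),(1,6),(2,9),(9,10)]

/-- Adjacency of the counterexample. -/
def adjB (a b : Fin 11) : Bool := (a, b) ∈ edgesL || (b, a) ∈ edgesL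

/-- The counterexample. -/
def G11 : SimpleGraph (Fin 11) where
  Adj a b := adjB a b = true
  symm := ⟨by decide +kernel⟩
  loopless := ⟨by decide +kernel⟩

instance : DecidableRel G11.Adj := fun a b => inferInstanceAs (Decidable (adjB a b = true))

lemma td_six : IsTotalDominating G11 {0, 3, 1, 6, 2, 9} := by
  unfold IsTotalDominating
  decide +kernel

/-- Each of the three disjoint sets `{2,9,10}`, `{0,3,4,5}`, `{1,6,7,8}` contains at least two
members of a total dominating set. -/
lemma td_lower (S : Finset (Fin 11)) (hT : IsTotalDominating G11 S) : 6 ≤ S.card := by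
  classical
  have key : ∀ A : Finset (Fin 11), (A = {2, 9, 10} ∨ A = {0, 3, 4, 5} ∨ A = {1, 6, 7, 8}) →
      2 ≤ (S ∩ A).card := by
    rintro A (rfl | rfl | rfl)
    · obtain ⟨w, hw, h⟩ := hT 10
      have hw9 : w = 9 := by clear hw; revert h; revert w; decide +kernel
      subst hw9
      obtain ⟨u, hu, h⟩ := hT 9
      have hu2 : u = 2 ∨ u = 10 := by clear hu; revert h; revert u; decide +kernel
      have hne : u ≠ 9 := by rcases hu2 with rfl | rfl <;> decide
      have : ({u, 9} : Finset (Fin 11)) ⊆ S ∩ {2, 9, 10} := by
        intro x hx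
        simp only [Finset.mem_insert, Finset.mem_singleton] at hx
        rcases hx with rfl | rfl
        · refine Finset.mem_inter.2 ⟨hu, ?_⟩
          rcases hu2 with rfl | rfl <;> decide
        · exact Finset.mem_inter.2 ⟨hw, by decide⟩
      calc 2 = ({u, 9} : Finset (Fin 11)).card := (Finset.card_pair hne).symm
        _ ≤ _ := Finset.card_le_card this
    · obtain ⟨w, hw, h⟩ := hT 4
      have hw9 : w = 3 ∨ w = 5 := by clear hw; revert h; revert w; decide +kernel
      obtain ⟨u, hu, h', hne⟩ : ∃ u ∈ S, (u = 0 ∨ u = 3 ∨ u = 4 ∨ u = 5) ∧ u ≠ w := by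
        rcases hw9 with rfl | rfl
        · obtain ⟨u, hu, h⟩ := hT 3
          refine ⟨u, hu, ?_, ?_⟩ <;> (clear hu; revert h; revert u; decide +kernel)
        · obtain ⟨u, hu, h⟩ := hT 5
          refine ⟨u, hu, ?_, ?_⟩ <;> (clear hu; revert h; revert u; decide +kernel)
      have : ({u, w} : Finset (Fin 11)) ⊆ S ∩ {0, 3, 4, 5} := by
        intro x hx
        simp only [Finset.mem_insert, Finset.mem_singleton] at hx
        rcases hx with rfl | rfl
        · refine Finset.mem_inter.2 ⟨hu, ?_⟩
          rcases h' with rfl | rfl | rfl | rfl <;> decide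
        · refine Finset.mem_inter.2 ⟨hw, ?_⟩
          rcases hw9 with rfl | rfl <;> decide
      calc 2 = ({u, w} : Finset (Fin 11)).card := (Finset.card_pair hne).symm
        _ ≤ _ := Finset.card_le_card this
    · obtain ⟨w, hw, h⟩ := hT 7
      have hw9 : w = 6 ∨ w = 8 := by clear hw; revert h; revert w; decide +kernel
      obtain ⟨u, hu, h', hne⟩ : ∃ u ∈ S, (u = 1 ∨ u = 6 ∨ u = 7 ∨ u = 8) ∧ u ≠ w := by
        rcases hw9 with rfl | rfl
        · obtain ⟨u, hu, h⟩ := hT 6
          refine ⟨u, hu, ?_, ?_⟩ <;> (clear hu; revert h; revert u; decide +kernel)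
        · obtain ⟨u, hu, h⟩ := hT 8
          refine ⟨u, hu, ?_, ?_⟩ <;> (clear hu; revert h; revert u; decide +kernel)
      have : ({u, w} : Finset (Fin 11)) ⊆ S ∩ {1, 6, 7, 8} := by
        intro x hx
        simp only [Finset.mem_insert, Finset.mem_singleton] at hx
        rcases hx with rfl | rfl
        · refine Finset.mem_inter.2 ⟨hu, ?_⟩
          rcases h' with rfl | rfl | rfl | rfl <;> decide
        · refine Finset.mem_inter.2 ⟨hw, ?_⟩
          rcases hw9 with rfl | rfl <;> decide
      calc 2 = ({u, w} : Finset (Fin 11)).card := (Finset.card_pair hne).symm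
        _ ≤ _ := Finset.card_le_card this
  have h1 := key {2, 9, 10} (Or.inl rfl)
  have h2 := key {0, 3, 4, 5} (Or.inr (Or.inl rfl))
  have h3 := key {1, 6, 7, 8} (Or.inr (Or.inr rfl))
  have d1 : Disjoint (S ∩ {2, 9, 10}) (S ∩ {0, 3, 4, 5}) :=
    Finset.disjoint_of_subset_left Finset.inter_subset_right
      (Finset.disjoint_of_subset_right Finset.inter_subset_right (by decide))
  have d2 : Disjoint (S ∩ {2, 9, 10} ∪ S ∩ {0, 3, 4, 5}) (S ∩ {1, 6, 7, 8}) := by
    rw [← Finset.inter_union_distrib_left]
    exact Finset.disjoint_of_subset_left Finset.inter_subset_right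
      (Finset.disjoint_of_subset_right Finset.inter_subset_right (by decide))
  have h4 : ((S ∩ {2, 9, 10} ∪ S ∩ {0, 3, 4, 5}) ∪ S ∩ {1, 6, 7, 8}).card ≤ S.card :=
    Finset.card_le_card (Finset.union_subset (Finset.union_subset Finset.inter_subset_left
      Finset.inter_subset_left) Finset.inter_subset_left)
  rw [Finset.card_union_of_disjoint d2, Finset.card_union_of_disjoint d1] at h4
  omega

lemma gammat : totalDominationNumber G11 = 6 := by
  unfold totalDominationNumber
  apply le_antisymm
  · exact Nat.sInf_le ⟨{0, 3, 1, 6, 2, 9}, by decide, td_six⟩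
  · have hne : {k | ∃ S : Finset (Fin 11), S.card = k ∧ IsTotalDominating G11 S}.Nonempty :=
      ⟨6, {0, 3, 1, 6, 2, 9}, by decide, td_six⟩
    obtain ⟨S, hS, hT⟩ := Nat.sInf_mem hne
    rw [← hS]
    exact td_lower S hT

lemma match_le (M : Finset (Sym2 (Fin 11))) (hM : IsMatchingSet G11 M) : M.card ≤ 5 := by
  classical
  have h1 : (M.biUnion (fun e => e.toFinset)).card = ∑ e ∈ M, e.toFinset.card := by
    apply Finset.card_biUnion
    intro e he f hf hef
    rw [Function.onFun, Finset.disjoint_left]
    intro v hv hv'
    rw [Sym2.mem_toFinset] at hv hv'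
    exact hM.2 e he f hf hef v hv hv'
  have h2 : ∑ e ∈ M, e.toFinset.card = 2 * M.card := by
    rw [Finset.sum_congr rfl (g := fun _ => 2)]
    · rw [Finset.sum_const, smul_eq_mul, mul_comm]
    · intro e he
      apply Sym2.card_toFinset_of_not_isDiag
      exact G11.not_isDiag_of_mem_edgeSet (hM.1 e he)
  have h3 : (M.biUnion (fun e => e.toFinset)).card ≤ 11 := by
    have := Finset.card_le_univ (M.biUnion (fun e => e.toFinset))
    simpa using this
  omega

lemma alpha : matchingNumber G11 = 5 := by
  unfold matchingNumber
  apply le_antisymm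
  · apply csSup_le'
    rintro k ⟨M, rfl, hM⟩
    exact match_le M hM
  · apply le_csSup
    · refine ⟨5, ?_⟩
      rintro k ⟨M, rfl, hM⟩
      exact match_le M hM
    · refine ⟨{s(0, 3), s(4, 5), s(1, 6), s(7, 8), s(9, 10)}, by decide, ?_, ?_⟩
      · intro e he
        simp only [Finset.mem_insert, Finset.mem_singleton] at he
        rcases he with rfl | rfl | rfl | rfl | rfl <;>
          (rw [SimpleGraph.mem_edgeSet]; decide +kernel)
      · decide +kernel

lemma conn : G11.Connected := by
  have key : ∀ v, G11.Reachable 0 v := by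
    have r1 : G11.Reachable 0 1 := (show G11.Adj 0 1 by decide +kernel).reachable
    have r2 : G11.Reachable 0 2 := (show G11.Adj 0 2 by decide +kernel).reachable
    have r3 : G11.Reachable 0 3 := (show G11.Adj 0 3 by decide +kernel).reachable
    have r4 := r3.trans (show G11.Adj 3 4 by decide +kernel).reachable
    have r5 := r3.trans (show G11.Adj 3 5 by decide +kernel).reachable
    have r6 := r1.trans (show G11.Adj 1 6 by decide +kernel).reachable
    have r7 := r6.trans (show G11.Adj 6 7 by decide +kernel).reachable
    have r8 := r6.trans (show G11.Adj 6 8 by decide +kernel).reachable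
    have r9 := r2.trans (show G11.Adj 2 9 by decide +kernel).reachable
    have r10 := r9.trans (show G11.Adj 9 10 by decide +kernel).reachable
    intro v
    fin_cases v
    · exact SimpleGraph.Reachable.refl _
    · exact r1
    · exact r2
    · exact r3
    · exact r4
    · exact r5
    · exact r6
    · exact r7
    · exact r8
    · exact r9
    · exact r10
  have : Nonempty (Fin 11) := ⟨0⟩
  exact ⟨fun u v => (key u).symm.trans (key v)⟩

instance : DecidablePred (InTriangle G11) := fun v => by unfold InTriangle; infer_instance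

lemma ntri : {v : Fin 11 | ¬ InTriangle G11 v} = {9, 10} := by
  ext v
  simp only [Set.mem_ofPred_eq, Set.mem_insert_iff, Set.mem_singleton_iff]
  revert v
  decide +kernel

/-- **Questions 1 and 2 are answered in the negative.** There is a connected graph on eleven
vertices with exactly two vertices outside triangles whose total domination number (six) exceeds
its matching number (five). -/
theorem result : ∃ G : SimpleGraph (Fin 11), G.Connected ∧
    {v : Fin 11 | ¬ InTriangle G v}.ncard = 2 ∧
    totalDominationNumber G = 6 ∧ matchingNumber G = 5 := by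
  refine ⟨G11, conn, ?_, gammat, alpha⟩
  rw [ntri]
  exact Set.ncard_pair (by decide)

end Pool.Agent.Results.MP_7cc4cd_co.GTwoFails
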